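import Mathlib

set_option autoImplicit false
open MeasureTheory FourierTransform SchwartzMap
open scoped ENNReal

namespace Pool.Agent.LibWaveDir

/-- The integral Fourier transform of a function in `L¹ ∩ L²` agrees a.e. with the `L²` one. -/
theorem fourier_ae_eq {V : Type*} [NormedAddCommGroup V] [InnerProductSpace ℝ V]
    [FiniteDimensional ℝ V] [MeasurableSpace V] [BorelSpace V]
    (g : V → ℂ) (hg1 : Integrable g) (hg2 : MemLp g 2) :
    ∀ᵐ w, (𝓕 (hg2.toLp g) : Lp ℂ 2 (volume : Measure V)) w = 𝓕 g w := by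
  apply ae_eq_of_integral_contDiff_smul_eq
  · exact (Lp.memLp _).locallyIntegrable (by norm_num)
  · have hc : Continuous (𝓕 g) :=
      VectorFourier.fourierIntegral_continuous Real.continuous_fourierChar
        (innerSL ℝ).continuous₂ hg1
    exact hc.locallyIntegrable
  · intro φ hφ1 hφ2
    have h1 : ContDiff ℝ (⊤ : ℕ∞) (fun x => (φ x : ℂ)) :=
      Complex.ofRealCLM.contDiff.comp hφ1
    have h2 : HasCompactSupport (fun x => (φ x : ℂ)) :=
      hφ2.comp_left (g := fun r : ℝ => (r : ℂ)) (by simp)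
    set ψ : 𝓢(V, ℂ) := h2.toSchwartzMap h1 with hψ
    have hψx : ∀ x, ψ x = (φ x : ℂ) := fun x => rfl
    have key := congrArg (fun T => T ψ)
      (MeasureTheory.Lp.fourier_toTemperedDistribution_eq (hg2.toLp g))
    simp only [TemperedDistribution.fourier_apply, Lp.toTemperedDistribution_apply] at key
    have e1 : ∫ x, φ x • (𝓕 (hg2.toLp g) : Lp ℂ 2 (volume : Measure V)) x
        = ∫ x, ψ x • (𝓕 (hg2.toLp g) : Lp ℂ 2 (volume : Measure V)) x := by
      apply integral_congr_ae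
      filter_upwards with x
      rw [hψx]; simp
    rw [e1, ← key]
    have e2 : ∫ x, (𝓕 ψ) x • (hg2.toLp g : Lp ℂ 2 (volume : Measure V)) x
        = ∫ x, (𝓕 ψ) x • g x := by
      apply integral_congr_ae
      filter_upwards [hg2.coeFn_toLp] with x hx
      rw [hx]
    rw [e2]
    have e3 := VectorFourier.integral_fourierIntegral_smul_eq_flip (L := innerₗ V)
      (μ := volume) (ν := volume) (f := (ψ : V → ℂ)) (g := g)
      Real.continuous_fourierChar continuous_inner ψ.integrable hg1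
    have e4 : ∫ x, φ x • 𝓕 g x = ∫ x, ψ x • 𝓕 g x := by
      apply integral_congr_ae
      filter_upwards with x
      rw [hψx]; simp
    rw [e4]
    simpa using! e3

/-- Plancherel inequality for functions in `L¹ ∩ L²`. -/
theorem plancherel {V : Type*} [NormedAddCommGroup V] [InnerProductSpace ℝ V]
    [FiniteDimensional ℝ V] [MeasurableSpace V] [BorelSpace V]
    (g : V → ℂ) (hg1 : Integrable g) (hg2 : MemLp g 2) :
    ∫⁻ w, ‖𝓕 g w‖ₑ ^ 2 = ∫⁻ w, ‖g w‖ₑ ^ 2 := by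
  have h1 : ∫⁻ w, ‖𝓕 g w‖ₑ ^ 2 =
      ∫⁻ w, ‖(𝓕 (hg2.toLp g) : Lp ℂ 2 (volume : Measure V)) w‖ₑ ^ 2 := by
    apply lintegral_congr_ae
    filter_upwards [fourier_ae_eq g hg1 hg2] with w hw
    rw [hw]
  have h2 : ∫⁻ w, ‖g w‖ₑ ^ 2 = ∫⁻ w, ‖(hg2.toLp g : Lp ℂ 2 (volume : Measure V)) w‖ₑ ^ 2 := by
    apply lintegral_congr_ae
    filter_upwards [hg2.coeFn_toLp] with w hw
    rw [hw]
  have h3 : ∀ F : Lp ℂ 2 (volume : Measure V), ∫⁻ w, ‖F w‖ₑ ^ 2 = ‖F‖ₑ ^ 2 := by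
    intro F
    rw [Lp.enorm_def, eLpNorm_eq_lintegral_rpow_enorm_toReal (by norm_num) (by norm_num)]
    simp only [ENNReal.toReal_ofNat, one_div]
    rw [← ENNReal.rpow_natCast, ← ENNReal.rpow_mul]
    simp
  rw [h1, h2, h3, h3]
  have h4 : ‖(𝓕 (hg2.toLp g) : Lp ℂ 2 (volume : Measure V))‖ = ‖hg2.toLp g‖ :=
    MeasureTheory.Lp.norm_fourier_eq _
  have h5 : ‖(𝓕 (hg2.toLp g) : Lp ℂ 2 (volume : Measure V))‖ₑ = ‖hg2.toLp g‖ₑ := by
    rw [← ofReal_norm, ← ofReal_norm, h4]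
  rw [h5]

/-- Plancherel inequality on `ℝ × ℝ` with the normalisation `exp (i (s₁ p₁ + s₂ p₂))`. -/
theorem plancherel_prod (g : ℝ × ℝ → ℂ) (hg1 : Integrable g) (hg2 : MemLp g 2) :
    ∫⁻ s : ℝ × ℝ, ‖∫ p : ℝ × ℝ, g p *
      Complex.exp (Complex.I * ((s.1 : ℂ) * (p.1 : ℂ) + (s.2 : ℂ) * (p.2 : ℂ)))‖ₑ ^ 2
      = ENNReal.ofReal ((2 * Real.pi) ^ 2) * ∫⁻ p, ‖g p‖ₑ ^ 2 := by
  set e := Complex.measurableEquivRealProd with he
  have hmp : MeasurePreserving e volume volume := Complex.volume_preserving_equiv_real_prod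
  set g' : ℂ → ℂ := fun z => g (e z) with hg'
  have hg1' : Integrable g' := (hmp.integrable_comp_emb e.measurableEmbedding).2 hg1
  have hg2' : MemLp g' 2 := hg2.comp_measurePreserving hmp
  have hP := plancherel g' hg1' hg2'
  have hpi : (2 * Real.pi) ≠ 0 := by positivity
  have hcont : Continuous (𝓕 g') :=
      VectorFourier.fourierIntegral_continuous Real.continuous_fourierChar
        (innerSL ℝ).continuous₂ hg1'
  -- pointwise identification
  have key : ∀ z : ℂ, (∫ p : ℝ × ℝ, g p *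
      Complex.exp (Complex.I * (((e z).1 : ℂ) * (p.1 : ℂ) + ((e z).2 : ℂ) * (p.2 : ℂ))))
      = 𝓕 g' ((-(2 * Real.pi)⁻¹ : ℝ) • z) := by
    intro z
    rw [Real.fourier_eq', ← hmp.integral_comp e.measurableEmbedding]
    apply integral_congr_ae
    filter_upwards with v
    simp only [hg', smul_eq_mul]
    rw [mul_comm]
    congr 2
    have h1 : (e z).1 = z.re := rfl
    have h2 : (e z).2 = z.im := rfl
    have h3 : (e v).1 = v.re := rfl
    have h4 : (e v).2 = v.im := rfl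
    rw [h1, h2, h3, h4, Complex.inner]
    push_cast
    simp only [Complex.real_smul, Complex.mul_re, Complex.conj_re, Complex.conj_im,
      Complex.ofReal_re, Complex.ofReal_im, Complex.mul_im]
    push_cast
    have hpi' : (Real.pi : ℂ) ≠ 0 := by exact_mod_cast Real.pi_ne_zero
    field_simp
    ring
  have h1 : ∫⁻ s : ℝ × ℝ, ‖∫ p : ℝ × ℝ, g p *
      Complex.exp (Complex.I * ((s.1 : ℂ) * (p.1 : ℂ) + (s.2 : ℂ) * (p.2 : ℂ)))‖ₑ ^ 2
      = ∫⁻ z : ℂ, ‖𝓕 g' ((-(2 * Real.pi)⁻¹ : ℝ) • z)‖ₑ ^ 2 := by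
    rw [← hmp.lintegral_comp_emb e.measurableEmbedding]
    simp_rw [key]
  have h2 : ∫⁻ z : ℂ, ‖𝓕 g' ((-(2 * Real.pi)⁻¹ : ℝ) • z)‖ₑ ^ 2
      = ENNReal.ofReal ((2 * Real.pi) ^ 2) * ∫⁻ z : ℂ, ‖𝓕 g' z‖ₑ ^ 2 := by
    have hne : (-(2 * Real.pi)⁻¹ : ℝ) ≠ 0 := by
      rw [neg_ne_zero]; exact inv_ne_zero hpi
    have hm := Measure.map_addHaar_smul (volume : Measure ℂ) hne
    have hmeas : Measurable fun z : ℂ => ‖𝓕 g' z‖ₑ ^ 2 := by
      exact (hcont.enorm.measurable).pow_const 2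
    have h3 : ∫⁻ z : ℂ, ‖𝓕 g' ((-(2 * Real.pi)⁻¹ : ℝ) • z)‖ₑ ^ 2
        = ∫⁻ z : ℂ, ‖𝓕 g' z‖ₑ ^ 2
          ∂(Measure.map (fun x => (-(2 * Real.pi)⁻¹ : ℝ) • x) (volume : Measure ℂ)) := by
      rw [lintegral_map hmeas (by fun_prop)]
    rw [h3, hm, lintegral_smul_measure, Complex.finrank_real_complex]
    congr 2
    rw [neg_sq, inv_pow, inv_inv, abs_of_nonneg (by positivity)]
  have h5 : ∫⁻ z : ℂ, ‖g' z‖ₑ ^ 2 = ∫⁻ p, ‖g p‖ₑ ^ 2 := by
    rw [← hmp.lintegral_comp_emb e.measurableEmbedding]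
  rw [h1, h2, hP, h5]

end Pool.Agent.LibWaveDir
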