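import Mathlib

set_option autoImplicit false
open scoped InnerProductSpace

namespace Pool.Agent.LibWaveDir

/-- Extension of a norm-decreasing assignment `u i ↦ v i` to a contraction that kills the
orthogonal complement of the span of the `u i`. -/
theorem exists_contraction {ι H K : Type*} [NormedAddCommGroup H] [InnerProductSpace ℂ H]
    [CompleteSpace H] [NormedAddCommGroup K] [InnerProductSpace ℂ K] [CompleteSpace K]
    (v : ι → H) (u : ι → K)
    (hle : ∀ c : ι →₀ ℂ, ‖Finsupp.linearCombination ℂ v c‖ ≤ ‖Finsupp.linearCombination ℂ u c‖) :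
    ∃ J : K →L[ℂ] H, (∀ k, ‖J k‖ ≤ ‖k‖) ∧ (∀ i, J (u i) = v i) ∧
      (∀ k, (∀ i, ⟪u i, k⟫_ℂ = 0) → J k = 0) := by
  set T := Finsupp.linearCombination ℂ u with hT
  set X := Finsupp.linearCombination ℂ v with hX
  set R : Submodule ℂ K := (LinearMap.range T).topologicalClosure with hR
  have : CompleteSpace R := by
    have : IsClosed (R : Set K) := Submodule.isClosed_topologicalClosure _
    exact this.completeSpace_coe
  have hmem : ∀ c, T c ∈ R := fun c =>
    Submodule.le_topologicalClosure _ (LinearMap.mem_range_self T c)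
  set T' : (ι →₀ ℂ) →ₗ[ℂ] R := T.codRestrict R hmem with hT'
  have hdense : DenseRange T' := by
    intro y
    rw [Metric.mem_closure_iff]
    intro ε hε
    have hy : (y : K) ∈ closure ((LinearMap.range T : Submodule ℂ K) : Set K) := by
      have h : ∀ z ∈ R, z ∈ closure ((LinearMap.range T : Submodule ℂ K) : Set K) := by
        intro z hz
        rwa [hR, ← SetLike.mem_coe, Submodule.topologicalClosure_coe] at hz
      exact h _ y.2
    obtain ⟨z, ⟨c, rfl⟩, hz⟩ := Metric.mem_closure_iff.1 hy ε hε
    exact ⟨T' c, ⟨c, rfl⟩, hz⟩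
  have hnorm : ∀ c, ‖X c‖ ≤ 1 * ‖T' c‖ := by
    intro c
    rw [one_mul]
    exact hle c
  set J₀ : R →L[ℂ] H := X.extendOfNorm T' with hJ₀
  have hJ₀T : ∀ c, J₀ (T' c) = X c := fun c =>
    LinearMap.extendOfNorm_eq hdense ⟨1, hnorm⟩ c
  have hJ₀n : ∀ r, ‖J₀ r‖ ≤ ‖r‖ := by
    intro r
    refine hdense.induction_on (p := fun r => ‖J₀ r‖ ≤ ‖r‖) r ?_ ?_
    · exact isClosed_le (by fun_prop) (by fun_prop)
    · intro c
      rw [hJ₀T]
      simpa using hnorm c
  refine ⟨J₀ ∘L R.orthogonalProjectionOnto, ?_, ?_, ?_⟩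
  · intro k
    calc ‖J₀ (R.orthogonalProjectionOnto k)‖ ≤ ‖R.orthogonalProjectionOnto k‖ := hJ₀n _
      _ ≤ ‖k‖ := by
        have := R.orthogonalProjectionOnto.le_opNorm k
        have h2 := R.orthogonalProjectionOnto_norm_le
        nlinarith [norm_nonneg k]
  · intro i
    have h1 : u i = T (Finsupp.single i 1) := by simp [hT]
    have h2 : R.orthogonalProjectionOnto (u i) = T' (Finsupp.single i 1) := by
      rw [h1]
      exact Submodule.orthogonalProjectionOnto_mem_subspace_eq_self (K := R) (T' (Finsupp.single i 1))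
    rw [ContinuousLinearMap.comp_apply, h2, hJ₀T]
    simp [hX]
  · intro k hk
    have h1 : R.orthogonalProjectionOnto k = 0 := by
      rw [Submodule.orthogonalProjectionOnto_eq_zero_iff]
      rw [hR, Submodule.orthogonal_closure]
      rw [Submodule.mem_orthogonal]
      rintro _ ⟨c, rfl⟩
      rw [hT, Finsupp.linearCombination_apply, Finsupp.sum, sum_inner]
      apply Finset.sum_eq_zero
      intro i _
      rw [inner_smul_left, hk i, mul_zero]
    rw [ContinuousLinearMap.comp_apply, h1, map_zero]

/-- Intertwining passes to the contraction of `exists_contraction`. -/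
theorem intertwine {ι H K : Type*} [NormedAddCommGroup H] [InnerProductSpace ℂ H]
    [CompleteSpace H] [NormedAddCommGroup K] [InnerProductSpace ℂ K] [CompleteSpace K]
    (u : ι → K) (J : K →L[ℂ] H)
    (hJ0 : ∀ k, (∀ i, ⟪u i, k⟫_ℂ = 0) → J k = 0)
    (V : H →L[ℂ] H) (M : K →L[ℂ] K)
    (hM : ∀ i, J (M (u i)) = V (J (u i)))
    (hM' : ∀ k, (∀ i, ⟪u i, k⟫_ℂ = 0) → ∀ i, ⟪u i, M k⟫_ℂ = 0) (k : K) :
    J (M k) = V (J k) := by
  set R : Submodule ℂ K := (Submodule.span ℂ (Set.range u)).topologicalClosure with hR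
  have : CompleteSpace R := by
    have : IsClosed (R : Set K) := Submodule.isClosed_topologicalClosure _
    exact this.completeSpace_coe
  have h1 : ∀ r ∈ R, J (M r) = V (J r) := by
    intro r hr
    have hcl : IsClosed {r : K | J (M r) = V (J r)} := isClosed_eq (by fun_prop) (by fun_prop)
    have hsub : ((Submodule.span ℂ (Set.range u) : Submodule ℂ K) : Set K)
        ⊆ {r : K | J (M r) = V (J r)} := by
      intro r hr
      induction hr using Submodule.span_induction with
      | mem x hx => obtain ⟨i, rfl⟩ := hx; exact hM i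
      | zero => simp
      | add x y _ _ hx hy =>
        simp only [Set.mem_ofPred_eq] at hx hy ⊢
        simp [hx, hy]
      | smul a x _ hx =>
        simp only [Set.mem_ofPred_eq] at hx ⊢
        simp [hx]
    have := hcl.closure_subset_iff.2 hsub
    apply this
    rwa [hR, ← SetLike.mem_coe, Submodule.topologicalClosure_coe] at hr
  have hdec : k = (R.orthogonalProjectionOnto k : K) + (k - R.orthogonalProjectionOnto k) := by abel
  have hperp : ∀ i, ⟪u i, k - R.orthogonalProjectionOnto k⟫_ℂ = 0 := by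
    intro i
    have h2 : u i ∈ R := Submodule.le_topologicalClosure _ (Submodule.subset_span ⟨i, rfl⟩)
    have h3 : k - R.orthogonalProjectionOnto k ∈ Rᗮ := Submodule.sub_starProjection_mem_orthogonal k
    exact (Submodule.mem_orthogonal _ _).1 h3 _ h2
  rw [hdec, map_add, map_add, map_add, map_add, h1 _ (Subtype.mem _), hJ0 _ hperp,
    hJ0 _ (hM' _ hperp), map_zero]

end Pool.Agent.LibWaveDir
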