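import Mathlib
import Pool.Agent.LibWaveDir.Plancherel
import Pool.Agent.LibWaveDir.Contraction

set_option autoImplicit false
open MeasureTheory
open scoped InnerProductSpace ENNReal ComplexConjugate

namespace Pool.Agent.LibWaveDir

/-- The character `p ↦ exp (i s·p)`. -/
noncomputable def ch (s p : ℝ × ℝ) : ℂ :=
  Complex.exp (Complex.I * ((s.1 : ℂ) * (p.1 : ℂ) + (s.2 : ℂ) * (p.2 : ℂ)))

theorem ch_norm (s p : ℝ × ℝ) : ‖ch s p‖ = 1 := by
  unfold ch
  rw [mul_comm]
  have : ((s.1 : ℂ) * (p.1 : ℂ) + (s.2 : ℂ) * (p.2 : ℂ)) * Complex.I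
      = ((s.1 * p.1 + s.2 * p.2 : ℝ) : ℂ) * Complex.I := by push_cast; ring
  rw [this, Complex.norm_exp_ofReal_mul_I]

theorem ch_cont (s : ℝ × ℝ) : Continuous (ch s) := by
  unfold ch; fun_prop

theorem ch_conj_mul (s t p : ℝ × ℝ) : conj (ch s p) * ch t p = ch (t - s) p := by
  unfold ch
  rw [← Complex.exp_conj, ← Complex.exp_add]
  congr 1
  simp only [map_mul, map_add, Complex.conj_I, Complex.conj_ofReal, Prod.fst_sub, Prod.snd_sub,
    Complex.ofReal_sub]
  ring

theorem ch_mul (s t p : ℝ × ℝ) : ch s p * ch t p = ch (s + t) p := by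
  unfold ch
  rw [← Complex.exp_add]
  congr 1
  simp only [Prod.fst_add, Prod.snd_add, Complex.ofReal_add]
  ring

theorem ch_zero (p : ℝ × ℝ) : ch 0 p = 1 := by
  simp [ch]

theorem int_ch {h : ℝ × ℝ → ℂ} (hh : Integrable h) (s : ℝ × ℝ) :
    Integrable (fun p => h p * ch s p) := by
  refine hh.mul_bdd (c := 1) (ch_cont s).aestronglyMeasurable ?_
  filter_upwards with p
  rw [ch_norm]

theorem quad_eq {h : ℝ × ℝ → ℂ} (hh : Integrable h) (c : (ℝ × ℝ) →₀ ℂ) :
    ∑ s ∈ c.support, ∑ t ∈ c.support, conj (c s) * (c t * ∫ p, h p * ch (t - s) p)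
      = ∫ p, h p * (Complex.normSq (∑ s ∈ c.support, c s * ch s p) : ℂ) := by
  have h1 : ∀ p, h p * (Complex.normSq (∑ s ∈ c.support, c s * ch s p) : ℂ)
      = ∑ s ∈ c.support, ∑ t ∈ c.support, conj (c s) * (c t * (h p * ch (t - s) p)) := by
    intro p
    rw [Complex.normSq_eq_conj_mul_self, map_sum, Finset.sum_mul_sum, Finset.mul_sum]
    refine Finset.sum_congr rfl fun s _ => ?_
    rw [Finset.mul_sum]
    refine Finset.sum_congr rfl fun t _ => ?_
    rw [map_mul, ← ch_conj_mul]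
    ring
  simp_rw [h1]
  rw [integral_finsetSum]
  · refine Finset.sum_congr rfl fun s _ => ?_
    rw [integral_finsetSum]
    · refine Finset.sum_congr rfl fun t _ => ?_
      rw [integral_const_mul, integral_const_mul]
    · intro t _
      exact ((int_ch hh _).const_mul _).const_mul _
  · intro s _
    refine integrable_finsetSum _ fun t _ => ?_
    exact ((int_ch hh _).const_mul _).const_mul _

theorem norm_sq_comb {K : Type*} [NormedAddCommGroup K] [InnerProductSpace ℂ K]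
    (g : ℝ × ℝ → K) (c : (ℝ × ℝ) →₀ ℂ) :
    (‖Finsupp.linearCombination ℂ g c‖ ^ 2 : ℝ)
        = RCLike.re (∑ s ∈ c.support, ∑ t ∈ c.support,
            conj (c s) * (c t * ⟪g s, g t⟫_ℂ) : ℂ) := by
  rw [@norm_sq_eq_re_inner ℂ, Finsupp.linearCombination_apply, Finsupp.sum, sum_inner]
  congr 1
  refine Finset.sum_congr rfl fun s _ => ?_
  rw [inner_smul_left, inner_sum, Finset.mul_sum]
  refine Finset.sum_congr rfl fun t _ => ?_
  rw [inner_smul_right]

variable {H : Type*} [NormedAddCommGroup H] [InnerProductSpace ℂ H] [CompleteSpace H]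

/-- Vectors with `e ↦ (s ↦ ⟪e, V s x⟫)` bounded into `L²` are dense near any vector whose
correlation function is the Fourier transform of an integrable function. -/
theorem density (V : ℝ × ℝ → H →L[ℂ] H)
    (hVadd : ∀ s t y, V s (V t y) = V (s + t) y)
    (hV0 : ∀ y, V 0 y = y)
    (hVadj : ∀ s y z, ⟪V s y, z⟫_ℂ = ⟪y, V (-s) z⟫_ℂ)
    (x : H) (f : ℝ × ℝ → ℂ) (hf : Integrable f)
    (hx : ∀ s, ⟪x, V s x⟫_ℂ = ∫ p, f p * ch s p) (ε : ℝ) (hε : 0 < ε) :
    ∃ x' : H, ‖x - x'‖ < ε ∧ ∃ C : ℝ, 0 ≤ C ∧ ∀ e : H,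
      ∫⁻ s : ℝ × ℝ, ‖⟪e, V s x'⟫_ℂ‖ₑ ^ 2 ≤ ENNReal.ofReal (C * ‖e‖ ^ 2) := by
  classical
  set w : ℝ × ℝ → ℂ := fun p => ((Real.sqrt ‖f p‖ : ℝ) : ℂ) with hw
  have hwm : AEStronglyMeasurable w volume :=
    Complex.continuous_ofReal.comp_aestronglyMeasurable
      (Real.continuous_sqrt.comp_aestronglyMeasurable hf.aestronglyMeasurable.norm)
  have hwsq : ∀ p, ‖w p‖ ^ 2 = ‖f p‖ := by
    intro p
    rw [hw]
    simp only [Complex.norm_real, Real.norm_eq_abs]
    rw [abs_of_nonneg (Real.sqrt_nonneg _), Real.sq_sqrt (norm_nonneg _)]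
  have hw2 : MemLp w 2 := by
    rw [memLp_two_iff_integrable_sq_norm hwm]
    simp_rw [hwsq]
    exact hf.norm
  have hchm : ∀ s, MemLp (ch s) ∞ (volume : Measure (ℝ × ℝ)) := by
    intro s
    refine memLp_top_of_bound (ch_cont s).aestronglyMeasurable 1 ?_
    filter_upwards with p
    rw [ch_norm]
  -- multiplication operators
  set M : ℝ × ℝ → (Lp ℂ 2 (volume : Measure (ℝ × ℝ)) →L[ℂ] Lp ℂ 2 (volume : Measure (ℝ × ℝ))) :=
    fun s => (ContinuousLinearMap.mul ℂ ℂ).holderL (volume : Measure (ℝ × ℝ)) ∞ 2 2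
      ((hchm s).toLp (ch s)) with hM
  have hMcoe : ∀ s (F : Lp ℂ 2 (volume : Measure (ℝ × ℝ))),
      ∀ᵐ p, M s F p = ch s p * F p := by
    intro s F
    have h1 := ContinuousLinearMap.coeFn_holder (r := 2) (ContinuousLinearMap.mul ℂ ℂ)
      ((hchm s).toLp (ch s)) F
    filter_upwards [h1, (hchm s).coeFn_toLp] with p hp1 hp2
    have h2 : M s F p = _ := hp1
    rw [h2, hp2]
    rfl
  -- the vectors u
  set u0 : Lp ℂ 2 (volume : Measure (ℝ × ℝ)) := hw2.toLp w with hu0
  set u : ℝ × ℝ → Lp ℂ 2 (volume : Measure (ℝ × ℝ)) := fun s => M s u0 with hu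
  have hucoe : ∀ s, ∀ᵐ p, u s p = ch s p * w p := by
    intro s
    filter_upwards [hMcoe s u0, hw2.coeFn_toLp] with p hp1 hp2
    rw [hu]
    simp only
    rw [hp1, hu0, hp2]
  have huinner : ∀ s t, ⟪u s, u t⟫_ℂ = ∫ p, ((‖f p‖ : ℝ) : ℂ) * ch (t - s) p := by
    intro s t
    rw [L2.inner_def]
    apply integral_congr_ae
    filter_upwards [hucoe s, hucoe t] with p hp1 hp2
    rw [hp1, hp2, RCLike.inner_apply, map_mul, ← ch_conj_mul]
    have h3 : w p * conj (w p) = ((‖f p‖ : ℝ) : ℂ) := by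
      rw [Complex.mul_conj, Complex.normSq_eq_norm_sq, hwsq]
    rw [← h3]
    ring
  set v : ℝ × ℝ → H := fun s => V s x with hv
  have hvinner : ∀ s t, ⟪v s, v t⟫_ℂ = ∫ p, f p * ch (t - s) p := by
    intro s t
    rw [hv]
    simp only
    rw [hVadj, hVadd, ← hx]
    congr 3
    abel
  have hle : ∀ c : (ℝ × ℝ) →₀ ℂ,
      ‖Finsupp.linearCombination ℂ v c‖ ≤ ‖Finsupp.linearCombination ℂ u c‖ := by
    intro c
    have hfn : Integrable (fun p => ((‖f p‖ : ℝ) : ℂ)) := hf.norm.ofReal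
    have e2 : ‖Finsupp.linearCombination ℂ v c‖ ^ 2
        = RCLike.re (∫ p, f p * (Complex.normSq (∑ s ∈ c.support, c s * ch s p) : ℂ)) := by
      rw [norm_sq_comb, ← quad_eq hf c]
      congr 1
      refine Finset.sum_congr rfl fun s _ => Finset.sum_congr rfl fun t _ => ?_
      rw [hvinner]
    have e3 : ‖Finsupp.linearCombination ℂ u c‖ ^ 2
        = RCLike.re (∫ p, ((‖f p‖ : ℝ) : ℂ) *
            (Complex.normSq (∑ s ∈ c.support, c s * ch s p) : ℂ)) := by
      rw [norm_sq_comb, ← quad_eq hfn c]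
      congr 1
      refine Finset.sum_congr rfl fun s _ => Finset.sum_congr rfl fun t _ => ?_
      rw [huinner]
    have e4 : ∫ p, ((‖f p‖ : ℝ) : ℂ) *
            (Complex.normSq (∑ s ∈ c.support, c s * ch s p) : ℂ)
        = ((∫ p, ‖f p‖ * (Complex.normSq (∑ s ∈ c.support, c s * ch s p)) : ℝ) : ℂ) := by
      rw [← integral_complex_ofReal]
      congr 1
      ext p
      push_cast
      ring
    have e5 : ‖Finsupp.linearCombination ℂ v c‖ ^ 2 ≤ ‖Finsupp.linearCombination ℂ u c‖ ^ 2 := by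
      rw [e2, e3, e4]
      have h6 : (RCLike.re ((((∫ p, ‖f p‖ * (Complex.normSq (∑ s ∈ c.support, c s * ch s p)) : ℝ)
          : ℂ))) : ℝ) = ∫ p, ‖f p‖ * (Complex.normSq (∑ s ∈ c.support, c s * ch s p)) := by
        simp
      rw [h6]
      calc RCLike.re (∫ p, f p * (Complex.normSq (∑ s ∈ c.support, c s * ch s p) : ℂ))
          ≤ ‖∫ p, f p * (Complex.normSq (∑ s ∈ c.support, c s * ch s p) : ℂ)‖ :=
            RCLike.re_le_norm _
        _ ≤ ∫ p, ‖f p * (Complex.normSq (∑ s ∈ c.support, c s * ch s p) : ℂ)‖ :=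
            norm_integral_le_integral_norm _
        _ = ∫ p, ‖f p‖ * (Complex.normSq (∑ s ∈ c.support, c s * ch s p)) := by
            congr 1
            ext p
            rw [norm_mul, Complex.norm_real, Real.norm_eq_abs,
              abs_of_nonneg (Complex.normSq_nonneg _)]
    exact le_of_sq_le_sq e5 (norm_nonneg _)
  obtain ⟨J, hJn, hJu, hJ0⟩ := exists_contraction v u hle
  -- intertwining
  have hMu : ∀ s t, M s (u t) = u (s + t) := by
    intro s t
    apply Lp.ext
    filter_upwards [hMcoe s (u t), hucoe t, hucoe (s + t)] with p h1 h2 h3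
    rw [h1, h2, h3, ← mul_assoc, ch_mul]
  have hMadj : ∀ s (F G : Lp ℂ 2 (volume : Measure (ℝ × ℝ))),
      ⟪F, M s G⟫_ℂ = ⟪M (-s) F, G⟫_ℂ := by
    intro s F G
    rw [L2.inner_def, L2.inner_def]
    apply integral_congr_ae
    filter_upwards [hMcoe s G, hMcoe (-s) F] with p h1 h2
    rw [h1, h2, RCLike.inner_apply, RCLike.inner_apply, map_mul]
    have : conj (ch (-s) p) = ch s p := by
      have := ch_conj_mul (-s) 0 p
      rw [ch_zero, mul_one] at this
      rw [this]
      congr 1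
      simp
    rw [this]
    ring
  have hint : ∀ s k, J (M s k) = V s (J k) := by
    intro s k
    apply intertwine u J hJ0 (V s) (M s)
    · intro t
      rw [hMu, hJu, hJu, hv]
      simp only
      rw [hVadd]
    · intro k hk t
      rw [hMadj, hMu]
      exact hk _
  -- truncations
  set G : ℕ → Set (ℝ × ℝ) := fun n => {p | ‖w p‖ ≤ n} with hG
  have hwaem := hwm.aemeasurable
  have htrm : ∀ n : ℕ, AEStronglyMeasurable (fun p => if ‖w p‖ ≤ n then w p else 0)
      (volume : Measure (ℝ × ℝ)) := by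
    intro n
    have : Measurable (fun z : ℂ => if ‖z‖ ≤ n then z else 0) := by
      refine Measurable.ite ?_ measurable_id measurable_const
      exact measurableSet_le measurable_norm measurable_const
    exact (this.comp_aemeasurable hwaem).aestronglyMeasurable
  have htr2 : ∀ n : ℕ, MemLp (fun p => if ‖w p‖ ≤ n then w p else 0) 2
      (volume : Measure (ℝ × ℝ)) := by
    intro n
    refine hw2.mono (htrm n) ?_
    filter_upwards with p
    split_ifs
    · exact le_rfl
    · simp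
  have hconv : Filter.Tendsto (fun n : ℕ => (htr2 n).toLp _) Filter.atTop (nhds u0) := by
    rw [Lp.tendsto_Lp_iff_tendsto_eLpNorm']
    have h1 : ∀ n : ℕ, eLpNorm (⇑((htr2 n).toLp _ : Lp ℂ 2 (volume : Measure (ℝ × ℝ)))
        - ⇑u0) 2 volume
        = (∫⁻ p, ‖(if ‖w p‖ ≤ n then w p else 0) - w p‖ₑ ^ 2) ^ (1 / 2 : ℝ) := by
      intro n
      rw [eLpNorm_eq_lintegral_rpow_enorm_toReal (by norm_num) (by norm_num)]
      simp only [ENNReal.toReal_ofNat]
      congr 1
      apply lintegral_congr_ae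
      filter_upwards [(htr2 n).coeFn_toLp, hw2.coeFn_toLp] with p h1 h2
      simp only [Pi.sub_apply]
      rw [h1, hu0, h2]
      norm_num
    simp_rw [h1]
    have h2 : Filter.Tendsto (fun n : ℕ => ∫⁻ p, ‖(if ‖w p‖ ≤ n then w p else 0) - w p‖ₑ ^ 2)
        Filter.atTop (nhds (∫⁻ _p : ℝ × ℝ, 0)) := by
      apply tendsto_lintegral_of_dominated_convergence' (bound := fun p => ‖w p‖ₑ ^ 2)
      · intro n
        exact (((htrm n).sub hwm).enorm).pow_const 2
      · intro n
        filter_upwards with p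
        split_ifs
        · simp
        · simp
      · have h3 := hw2.eLpNorm_lt_top
        rw [eLpNorm_eq_lintegral_rpow_enorm_toReal (by norm_num) (by norm_num)] at h3
        simp only [ENNReal.toReal_ofNat] at h3
        intro h4
        have h5 : ∫⁻ (x : ℝ × ℝ), ‖w x‖ₑ ^ (2 : ℝ) = ⊤ := by
          rw [← h4]
          congr 1
          ext p
          norm_num
        rw [h5] at h3
        simp at h3
      · filter_upwards with p
        apply tendsto_const_nhds.congr'
        obtain ⟨N, hN⟩ := exists_nat_ge ‖w p‖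
        filter_upwards [Filter.eventually_ge_atTop N] with n hn
        have : ‖w p‖ ≤ n := hN.trans (by exact_mod_cast hn)
        rw [if_pos this]
        simp
    rw [lintegral_zero] at h2
    have h3 := (ENNReal.continuous_rpow_const (y := (1 / 2 : ℝ))).tendsto 0
    rw [ENNReal.zero_rpow_of_pos (by norm_num)] at h3
    exact h3.comp h2
  have hJconv : Filter.Tendsto (fun n : ℕ => J ((htr2 n).toLp _)) Filter.atTop (nhds x) := by
    have h1 := (J.continuous.tendsto u0).comp hconv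
    have h2 : J u0 = x := by
      have h3 : u0 = u 0 := by
        rw [hu]
        simp only
        apply Lp.ext
        filter_upwards [hMcoe 0 u0] with p hp
        rw [hp, ch_zero, one_mul]
      rw [h3, hJu, hv]
      simp only
      exact hV0 x
    rw [h2] at h1
    exact h1
  obtain ⟨n, hn⟩ : ∃ n : ℕ, ‖x - J ((htr2 n).toLp _)‖ < ε := by
    have := (Metric.tendsto_nhds.1 hJconv ε hε).exists
    obtain ⟨n, hn⟩ := this
    refine ⟨n, ?_⟩
    rwa [dist_comm, dist_eq_norm] at hn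
  refine ⟨J ((htr2 n).toLp _), hn, (2 * Real.pi) ^ 2 * (n : ℝ) ^ 2, by positivity, ?_⟩
  intro e
  set k : Lp ℂ 2 (volume : Measure (ℝ × ℝ)) := J.adjoint e with hk
  set τ : ℝ × ℝ → ℂ := fun p => if ‖w p‖ ≤ n then w p else 0 with hτ
  set g : ℝ × ℝ → ℂ := fun p => conj (k p) * τ p with hg
  have hkm : MemLp (fun p => conj (k p)) 2 (volume : Measure (ℝ × ℝ)) := by
    have := Lp.memLp k
    refine this.of_le ?_ ?_
    · exact Complex.continuous_conj.comp_aestronglyMeasurable this.aestronglyMeasurable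
    · filter_upwards with p
      simp
  have hg1 : Integrable g := hkm.integrable_mul (htr2 n)
  have hg2 : MemLp g 2 := by
    have h1 : MemLp τ ∞ (volume : Measure (ℝ × ℝ)) := by
      refine memLp_top_of_bound (htrm n) n ?_
      filter_upwards with p
      rw [hτ]
      simp only
      split_ifs with h
      · exact h
      · simp
    exact MemLp.mul (p := 2) (q := ∞) (r := 2) h1 hkm
  have hP := plancherel_prod g hg1 hg2
  have hid : ∀ s : ℝ × ℝ, ⟪e, V s (J ((htr2 n).toLp _))⟫_ℂ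
      = ∫ p : ℝ × ℝ, g p *
      Complex.exp (Complex.I * ((s.1 : ℂ) * (p.1 : ℂ) + (s.2 : ℂ) * (p.2 : ℂ))) := by
    intro s
    rw [← hint, ← ContinuousLinearMap.adjoint_inner_left, L2.inner_def]
    apply integral_congr_ae
    filter_upwards [hMcoe s ((htr2 n).toLp _), (htr2 n).coeFn_toLp] with p h1 h2
    rw [h1, h2, RCLike.inner_apply]
    simp only [hg, ch, hτ, hk]
    ring
  simp_rw [hid]
  rw [hP]
  have hgb : ∫⁻ p, ‖g p‖ₑ ^ 2 ≤ ENNReal.ofReal ((n : ℝ) ^ 2 * ‖e‖ ^ 2) := by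
    have h1 : ∫⁻ p, ‖g p‖ₑ ^ 2 ≤ ∫⁻ p, ENNReal.ofReal ((n : ℝ) ^ 2) * ‖k p‖ₑ ^ 2 := by
      apply lintegral_mono
      intro p
      simp only [hg]
      rw [enorm_mul, mul_pow, mul_comm]
      have h2 : ‖conj (k p)‖ₑ = ‖k p‖ₑ := by
        rw [← ofReal_norm, ← ofReal_norm]
        simp
      rw [h2]
      gcongr
      have h3 : ‖τ p‖ ≤ n := by
        rw [hτ]
        simp only
        split_ifs with h
        · exact h
        · simp
      rw [← ofReal_norm, ← ENNReal.ofReal_pow (norm_nonneg _)]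
      apply ENNReal.ofReal_le_ofReal
      gcongr
    have h4 : ∫⁻ p, ‖k p‖ₑ ^ 2 = ‖k‖ₑ ^ 2 := by
      rw [Lp.enorm_def, eLpNorm_eq_lintegral_rpow_enorm_toReal (by norm_num) (by norm_num)]
      simp only [ENNReal.toReal_ofNat, one_div]
      rw [← ENNReal.rpow_natCast, ← ENNReal.rpow_mul]
      simp
    refine h1.trans ?_
    rw [lintegral_const_mul', h4, ENNReal.ofReal_mul (by positivity)]
    · gcongr
      rw [← ofReal_norm, ← ENNReal.ofReal_pow (norm_nonneg _)]
      apply ENNReal.ofReal_le_ofReal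
      gcongr
      have hadj : ‖J.adjoint‖ ≤ 1 := by
        rw [LinearIsometryEquiv.norm_map]
        exact J.opNorm_le_bound zero_le_one (fun k => by simpa using hJn k)
      calc ‖k‖ ≤ ‖J.adjoint‖ * ‖e‖ := J.adjoint.le_opNorm e
        _ ≤ 1 * ‖e‖ := by gcongr
        _ = ‖e‖ := one_mul _
    · exact ENNReal.ofReal_ne_top
  calc ENNReal.ofReal ((2 * Real.pi) ^ 2) * ∫⁻ p, ‖g p‖ₑ ^ 2
      ≤ ENNReal.ofReal ((2 * Real.pi) ^ 2) * ENNReal.ofReal ((n : ℝ) ^ 2 * ‖e‖ ^ 2) := by
        gcongr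
    _ = ENNReal.ofReal ((2 * Real.pi) ^ 2 * (n : ℝ) ^ 2 * ‖e‖ ^ 2) := by
        rw [← ENNReal.ofReal_mul (by positivity)]
        congr 1
        ring

end Pool.Agent.LibWaveDir
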