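import Mathlib

set_option autoImplicit false
open MeasureTheory Filter Topology
open scoped InnerProductSpace ENNReal

namespace Pool.Agent.LibWaveDir

variable {H : Type*} [NormedAddCommGroup H] [InnerProductSpace ℂ H] [CompleteSpace H]

theorem finrank_bound (F : H →L[ℂ] H) (n : ℕ)
    (hF : Module.rank ℂ (LinearMap.range (F : H →ₗ[ℂ] H)) ≤ (n : Cardinal))
    (g : ℝ × ℝ → H) (hg : Continuous g) (C : ℝ) (hC : 0 ≤ C)
    (h : ∀ e : H, ∫⁻ s, ‖⟪e, g s⟫_ℂ‖ₑ ^ 2 ≤ ENNReal.ofReal (C * ‖e‖ ^ 2)) :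
    ∫⁻ s, ‖F (g s)‖ₑ ^ 2 ≤ ENNReal.ofReal (C * n * ‖F‖ ^ 2) := by
  classical
  set R := LinearMap.range (F : H →ₗ[ℂ] H) with hR
  have hfin : FiniteDimensional ℂ R := by
    rw [FiniteDimensional, ← Module.rank_lt_aleph0_iff]
    exact lt_of_le_of_lt hF (Cardinal.natCast_lt_aleph0)
  have hfr : Module.finrank ℂ R ≤ n := by
    have := Module.finrank_eq_rank ℂ R
    rw [← this] at hF
    exact_mod_cast hF
  set b := stdOrthonormalBasis ℂ R with hb
  have hnorm : ∀ v : H, ‖F v‖ ^ 2 = ∑ i, ‖⟪F.adjoint (b i : H), v⟫_ℂ‖ ^ 2 := by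
    intro v
    set y : R := ⟨F v, LinearMap.mem_range_self (F : H →ₗ[ℂ] H) v⟩ with hy
    have h1 := b.sum_sq_norm_inner_right y
    have h2 : ‖y‖ = ‖F v‖ := rfl
    rw [← h2, ← h1]
    refine Finset.sum_congr rfl fun i _ => ?_
    rw [ContinuousLinearMap.adjoint_inner_left, Submodule.coe_inner]
  have hnorme : ∀ v : H, ‖F v‖ₑ ^ 2 = ∑ i, ‖⟪F.adjoint (b i : H), v⟫_ℂ‖ₑ ^ 2 := by
    intro v
    rw [← ofReal_norm, ← ENNReal.ofReal_pow (norm_nonneg _), hnorm,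
      ENNReal.ofReal_sum_of_nonneg (fun i _ => by positivity)]
    refine Finset.sum_congr rfl fun i _ => ?_
    rw [ENNReal.ofReal_pow (norm_nonneg _), ofReal_norm]
  simp_rw [hnorme]
  rw [lintegral_finsetSum']
  · calc ∑ i, ∫⁻ s, ‖⟪F.adjoint (b i : H), g s⟫_ℂ‖ₑ ^ 2
        ≤ ∑ _i : Fin (Module.finrank ℂ R), ENNReal.ofReal (C * ‖F‖ ^ 2) := by
          refine Finset.sum_le_sum fun i _ => ?_
          refine (h _).trans ?_
          apply ENNReal.ofReal_le_ofReal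
          gcongr
          calc ‖F.adjoint (b i : H)‖ ≤ ‖F.adjoint‖ * ‖(b i : H)‖ := F.adjoint.le_opNorm _
            _ = ‖F‖ := by
              rw [LinearIsometryEquiv.norm_map]
              have : ‖(b i : H)‖ = 1 := b.orthonormal.1 i
              rw [this, mul_one]
      _ = ENNReal.ofReal (C * (Module.finrank ℂ R) * ‖F‖ ^ 2) := by
          rw [Finset.sum_const, Finset.card_univ, Fintype.card_fin, nsmul_eq_mul,
            ← ENNReal.ofReal_natCast, ← ENNReal.ofReal_mul (by positivity)]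
          congr 1
          ring
      _ ≤ ENNReal.ofReal (C * n * ‖F‖ ^ 2) := by
          apply ENNReal.ofReal_le_ofReal
          gcongr
  · intro i _
    have : Continuous fun s => ⟪F.adjoint (b i : H), g s⟫_ℂ := by fun_prop
    exact (this.enorm.measurable.pow_const 2).aemeasurable

theorem finrank_eLpNorm (F : H →L[ℂ] H) (n : ℕ)
    (hF : Module.rank ℂ (LinearMap.range (F : H →ₗ[ℂ] H)) ≤ (n : Cardinal))
    (g : ℝ × ℝ → H) (hg : Continuous g) (C : ℝ) (hC : 0 ≤ C)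
    (h : ∀ e : H, ∫⁻ s, ‖⟪e, g s⟫_ℂ‖ₑ ^ 2 ≤ ENNReal.ofReal (C * ‖e‖ ^ 2)) :
    eLpNorm (fun s => F (g s)) 2 volume ≤ ENNReal.ofReal (Real.sqrt C * (Real.sqrt n * ‖F‖)) := by
  rw [eLpNorm_eq_lintegral_rpow_enorm_toReal (by norm_num) (by norm_num)]
  simp only [ENNReal.toReal_ofNat]
  have h1 := finrank_bound F n hF g hg C hC h
  have h2 : ∫⁻ s, ‖F (g s)‖ₑ ^ (2 : ℝ) = ∫⁻ s, ‖F (g s)‖ₑ ^ 2 := by
    congr 1
    ext s
    norm_num
  rw [h2]
  calc (∫⁻ s, ‖F (g s)‖ₑ ^ 2) ^ (1 / 2 : ℝ)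
      ≤ (ENNReal.ofReal (C * n * ‖F‖ ^ 2)) ^ (1 / 2 : ℝ) := by gcongr
    _ = ENNReal.ofReal (Real.sqrt C * (Real.sqrt n * ‖F‖)) := by
      rw [ENNReal.ofReal_rpow_of_nonneg (by positivity) (by norm_num)]
      congr 1
      rw [← Real.sqrt_eq_rpow, Real.sqrt_mul (by positivity), Real.sqrt_mul hC,
        Real.sqrt_sq (norm_nonneg _)]
      ring

/-- Approximation numbers. -/
noncomputable def apx (T : H →L[ℂ] H) (n : ℕ) : ℝ :=
  sInf {r : ℝ | ∃ F : H →L[ℂ] H,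
    Module.rank ℂ (LinearMap.range (F : H →ₗ[ℂ] H)) ≤ (n : Cardinal) ∧ r = ‖T - F‖}

theorem apx_nonempty (T : H →L[ℂ] H) (n : ℕ) : {r : ℝ | ∃ F : H →L[ℂ] H,
    Module.rank ℂ (LinearMap.range (F : H →ₗ[ℂ] H)) ≤ (n : Cardinal) ∧ r = ‖T - F‖}.Nonempty := by
  refine ⟨‖T - 0‖, 0, ?_, rfl⟩
  have : LinearMap.range ((0 : H →L[ℂ] H) : H →ₗ[ℂ] H) = ⊥ := by
    ext x; simp
  rw [this]
  simp

theorem apx_bdd (T : H →L[ℂ] H) (n : ℕ) : BddBelow {r : ℝ | ∃ F : H →L[ℂ] H,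
    Module.rank ℂ (LinearMap.range (F : H →ₗ[ℂ] H)) ≤ (n : Cardinal) ∧ r = ‖T - F‖} := by
  refine ⟨0, ?_⟩
  rintro r ⟨F, _, rfl⟩
  exact norm_nonneg _

theorem apx_nonneg (T : H →L[ℂ] H) (n : ℕ) : 0 ≤ apx T n := by
  apply Real.sInf_nonneg
  rintro r ⟨F, _, rfl⟩
  exact norm_nonneg _

theorem apx_anti (T : H →L[ℂ] H) {m n : ℕ} (hmn : m ≤ n) : apx T n ≤ apx T m := by
  apply csInf_le_csInf (apx_bdd T n) (apx_nonempty T m)
  rintro r ⟨F, hF, rfl⟩
  exact ⟨F, hF.trans (by exact_mod_cast hmn), rfl⟩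

theorem memLp_of_summable (T : H →L[ℂ] H)
    (hT : Summable fun n : ℕ => apx T n / Real.sqrt ((n : ℝ) + 1))
    (g : ℝ × ℝ → H) (hg : Continuous g) (C : ℝ) (hC : 0 ≤ C)
    (h : ∀ e : H, ∫⁻ s, ‖⟪e, g s⟫_ℂ‖ₑ ^ 2 ≤ ENNReal.ofReal (C * ‖e‖ ^ 2)) :
    MemLp (fun s => T (g s)) 2 (volume : Measure (ℝ × ℝ)) := by
  -- condensation
  have hcond : Summable fun k : ℕ => (2 : ℝ) ^ k * (apx T (2 ^ k) / Real.sqrt (((2 ^ k : ℕ) : ℝ) + 1)) := by
    rw [← summable_condensed_iff_of_nonneg] at hT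
    · exact hT
    · intro n
      exact div_nonneg (apx_nonneg T n) (Real.sqrt_nonneg _)
    · intro m n _ hmn
      have h1 := apx_nonneg T n
      have h2 := apx_anti T hmn
      have h3 := apx_nonneg T m
      gcongr
  have hs : Summable fun k : ℕ => Real.sqrt (2 ^ k) * apx T (2 ^ k) := by
    refine Summable.of_nonneg_of_le (fun k => mul_nonneg (Real.sqrt_nonneg _) (apx_nonneg _ _))
      (fun k => ?_) (hcond.mul_left (Real.sqrt 2))
    have hk : (1 : ℝ) ≤ 2 ^ k := one_le_pow₀ (by norm_num)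
    have h1 : Real.sqrt (2 ^ k) ≤ Real.sqrt 2 * ((2 : ℝ) ^ k / Real.sqrt (((2 ^ k : ℕ) : ℝ) + 1)) := by
      rw [← mul_div_assoc, le_div_iff₀ (by positivity), ← Real.sqrt_mul (by positivity)]
      have h2 : Real.sqrt 2 * 2 ^ k = Real.sqrt (2 * (2 ^ k * 2 ^ k)) := by
        rw [Real.sqrt_mul (by norm_num), Real.sqrt_mul_self (by positivity)]
      rw [h2]
      apply Real.sqrt_le_sqrt
      push_cast
      nlinarith
    calc Real.sqrt (2 ^ k) * apx T (2 ^ k)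
        ≤ (Real.sqrt 2 * ((2 : ℝ) ^ k / Real.sqrt (((2 ^ k : ℕ) : ℝ) + 1))) * apx T (2 ^ k) :=
          mul_le_mul_of_nonneg_right h1 (apx_nonneg _ _)
      _ = Real.sqrt 2 * ((2 : ℝ) ^ k * (apx T (2 ^ k) / Real.sqrt (((2 ^ k : ℕ) : ℝ) + 1))) := by
          ring
  -- approximants
  have hex : ∀ k : ℕ, ∃ F : H →L[ℂ] H,
      Module.rank ℂ (LinearMap.range (F : H →ₗ[ℂ] H)) ≤ ((2 ^ k : ℕ) : Cardinal) ∧
      ‖T - F‖ < apx T (2 ^ k) + (1 / 4) ^ k := by
    intro k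
    have h1 : sInf {r : ℝ | ∃ F : H →L[ℂ] H,
        Module.rank ℂ (LinearMap.range (F : H →ₗ[ℂ] H)) ≤ ((2 ^ k : ℕ) : Cardinal) ∧ r = ‖T - F‖}
        < apx T (2 ^ k) + (1 / 4) ^ k := by
      have : (0 : ℝ) < (1 / 4) ^ k := by positivity
      unfold apx
      linarith
    obtain ⟨r, ⟨F, hF, rfl⟩, hr⟩ := exists_lt_of_csInf_lt (apx_nonempty T (2 ^ k)) h1
    exact ⟨F, hF, hr⟩
  choose F hFr hFn using hex
  set d : ℕ → ℝ := fun k => apx T (2 ^ k) + (1 / 4) ^ k with hd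
  have hd0 : ∀ k, 0 ≤ d k := fun k => add_nonneg (apx_nonneg _ _) (by positivity)
  have hdanti : ∀ k, d (k + 1) ≤ d k := by
    intro k
    simp only [hd]
    have h1 := apx_anti T (Nat.pow_le_pow_right (n := 2) (by norm_num) (Nat.le_succ k))
    have h2 : (1 / 4 : ℝ) ^ (k + 1) ≤ (1 / 4) ^ k :=
      pow_le_pow_of_le_one (by norm_num) (by norm_num) (Nat.le_succ k)
    have h1' : apx T (2 ^ (k + 1)) ≤ apx T (2 ^ k) := h1
    linarith
  have hds : Summable fun k : ℕ => Real.sqrt (2 ^ k) * d k := by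
    have h2 : Summable fun k : ℕ => Real.sqrt (2 ^ k) * (1 / 4 : ℝ) ^ k := by
      refine Summable.of_nonneg_of_le (fun k => by positivity) (fun k => ?_)
        (summable_geometric_of_lt_one (r := 1 / 2) (by norm_num) (by norm_num))
      have : Real.sqrt (2 ^ k) ≤ 2 ^ k := by
        rw [Real.sqrt_le_left (by positivity)]
        have hk : (1 : ℝ) ≤ 2 ^ k := one_le_pow₀ (by norm_num)
        nlinarith
      calc Real.sqrt (2 ^ k) * (1 / 4 : ℝ) ^ k ≤ 2 ^ k * (1 / 4) ^ k := by gcongr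
        _ = (1 / 2) ^ k := by rw [← mul_pow]; norm_num
    refine (hs.add h2).congr fun k => ?_
    simp only [hd]; ring
  have hdt : Tendsto d atTop (𝓝 0) := by
    refine squeeze_zero hd0 (fun k => ?_) hds.tendsto_atTop_zero
    have : (1 : ℝ) ≤ Real.sqrt (2 ^ k) := by
      rw [Real.one_le_sqrt]; exact one_le_pow₀ (by norm_num)
    nlinarith [hd0 k]
  have hDr : ∀ k, Module.rank ℂ (LinearMap.range ((F (k + 1) - F k : H →L[ℂ] H) : H →ₗ[ℂ] H))
      ≤ ((3 * 2 ^ k : ℕ) : Cardinal) := by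
    intro k
    have h1 : ((F (k + 1) - F k : H →L[ℂ] H) : H →ₗ[ℂ] H)
        = (F (k + 1) : H →ₗ[ℂ] H) + -(F k : H →ₗ[ℂ] H) := by
      ext x; simp [sub_eq_add_neg]
    have h2 := LinearMap.rank_add_le (F (k + 1) : H →ₗ[ℂ] H) (-(F k : H →ₗ[ℂ] H))
    rw [h1]
    refine (h2 : _ ≤ _).trans ?_
    have h3 : LinearMap.rank (-(F k : H →ₗ[ℂ] H)) = LinearMap.rank (F k : H →ₗ[ℂ] H) := by
      unfold LinearMap.rank
      rw [LinearMap.range_neg]
    rw [h3]
    calc LinearMap.rank (F (k + 1) : H →ₗ[ℂ] H) + LinearMap.rank (F k : H →ₗ[ℂ] H)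
        ≤ ((2 ^ (k + 1) : ℕ) : Cardinal) + ((2 ^ k : ℕ) : Cardinal) := add_le_add (hFr _) (hFr _)
      _ = ((3 * 2 ^ k : ℕ) : Cardinal) := by
        rw [← Nat.cast_add]
        congr 1
        ring
  have hDn : ∀ k, ‖F (k + 1) - F k‖ ≤ 2 * d k := by
    intro k
    have h1 : F (k + 1) - F k = (T - F k) - (T - F (k + 1)) := by abel
    rw [h1]
    calc ‖(T - F k) - (T - F (k + 1))‖ ≤ ‖T - F k‖ + ‖T - F (k + 1)‖ := norm_sub_le _ _
      _ ≤ d k + d (k + 1) := add_le_add (hFn k).le (hFn (k + 1)).le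
      _ ≤ 2 * d k := by linarith [hdanti k]
  -- bounds on eLpNorm of D_k g
  have hDe : ∀ k, eLpNorm (fun s => (F (k + 1) - F k) (g s)) 2 volume
      ≤ ENNReal.ofReal (Real.sqrt C * (Real.sqrt 3 * 2) * (Real.sqrt (2 ^ k) * d k)) := by
    intro k
    refine (finrank_eLpNorm _ _ (hDr k) g hg C hC h).trans ?_
    apply ENNReal.ofReal_le_ofReal
    have h1 : Real.sqrt ((3 * 2 ^ k : ℕ) : ℝ) = Real.sqrt 3 * Real.sqrt (2 ^ k) := by
      push_cast
      rw [Real.sqrt_mul (by norm_num)]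
    rw [h1]
    have h2 := hDn k
    calc Real.sqrt C * (Real.sqrt 3 * Real.sqrt (2 ^ k) * ‖F (k + 1) - F k‖)
        ≤ Real.sqrt C * (Real.sqrt 3 * Real.sqrt (2 ^ k) * (2 * d k)) := by gcongr
      _ = Real.sqrt C * (Real.sqrt 3 * 2) * (Real.sqrt (2 ^ k) * d k) := by ring
  set S : ℝ := ∑' k, (Real.sqrt C * (Real.sqrt 3 * 2) * (Real.sqrt (2 ^ k) * d k)) with hS
  have hsum' : Summable fun k => (Real.sqrt C * (Real.sqrt 3 * 2) * (Real.sqrt (2 ^ k) * d k)) :=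
    hds.mul_left _
  have hcontF : ∀ G : H →L[ℂ] H, AEStronglyMeasurable (fun s => G (g s))
      (volume : Measure (ℝ × ℝ)) := fun G => (G.continuous.comp hg).aestronglyMeasurable
  have hFe : ∀ N, eLpNorm (fun s => F N (g s)) 2 volume
      ≤ eLpNorm (fun s => F 0 (g s)) 2 volume + ENNReal.ofReal S := by
    intro N
    have h1 : (fun s => F N (g s)) = (fun s => F 0 (g s)) +
        ∑ k ∈ Finset.range N, fun s => (F (k + 1) - F k) (g s) := by
      ext s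
      have h2 : ∑ k ∈ Finset.range N, (F (k + 1) (g s) - F k (g s)) = F N (g s) - F 0 (g s) :=
        Finset.sum_range_sub (fun k => F k (g s)) N
      simp only [Pi.add_apply, Finset.sum_apply]
      have h3 : ∀ k, (F (k + 1) - F k) (g s) = F (k + 1) (g s) - F k (g s) := fun k => rfl
      simp_rw [h3]
      rw [h2]
      abel
    rw [h1]
    refine (eLpNorm_add_le (hcontF _) ?_ (by norm_num)).trans ?_
    · exact Finset.aestronglyMeasurable_sum _ fun k _ => hcontF _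
    · gcongr
      refine (eLpNorm_sum_le (fun k _ => hcontF _) (by norm_num)).trans ?_
      calc ∑ k ∈ Finset.range N, eLpNorm (fun s => (F (k + 1) - F k) (g s)) 2 volume
          ≤ ∑ k ∈ Finset.range N,
            ENNReal.ofReal (Real.sqrt C * (Real.sqrt 3 * 2) * (Real.sqrt (2 ^ k) * d k)) :=
            Finset.sum_le_sum fun k _ => hDe k
        _ = ENNReal.ofReal (∑ k ∈ Finset.range N,
            (Real.sqrt C * (Real.sqrt 3 * 2) * (Real.sqrt (2 ^ k) * d k))) := by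
            rw [ENNReal.ofReal_sum_of_nonneg]
            intro k _
            have := hd0 k
            positivity
        _ ≤ ENNReal.ofReal S := by
            apply ENNReal.ofReal_le_ofReal
            apply hsum'.sum_le_tsum
            intro k _
            have := hd0 k
            positivity
  have hF0 : eLpNorm (fun s => F 0 (g s)) 2 volume < ⊤ :=
    lt_of_le_of_lt (finrank_eLpNorm _ _ (hFr 0) g hg C hC h) ENNReal.ofReal_lt_top
  refine ⟨hcontF T, ?_⟩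
  have hlim : ∀ᵐ s : ℝ × ℝ, Tendsto (fun n => F n (g s)) atTop (𝓝 (T (g s))) := by
    filter_upwards with s
    rw [tendsto_iff_norm_sub_tendsto_zero]
    refine squeeze_zero (fun n => norm_nonneg _) (fun n => ?_)
      (by simpa using hdt.mul_const ‖g s‖)
    have h1 : F n (g s) - T (g s) = -((T - F n) (g s)) := by
      simp
    rw [h1, norm_neg]
    calc ‖(T - F n) (g s)‖ ≤ ‖T - F n‖ * ‖g s‖ := (T - F n).le_opNorm _
      _ ≤ d n * ‖g s‖ := by gcongr; exact (hFn n).le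
  have := Lp.eLpNorm_lim_le_liminf_eLpNorm (p := 2) (fun n => hcontF (F n)) _ hlim
  refine lt_of_le_of_lt this ?_
  refine lt_of_le_of_lt (liminf_le_liminf (Eventually.of_forall hFe)) ?_
  rw [liminf_const]
  exact ENNReal.add_lt_top.2 ⟨hF0, ENNReal.ofReal_lt_top⟩

end Pool.Agent.LibWaveDir
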