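import Mathlib
import Pool.Agent.LibWaveDir.Density
import Pool.Agent.LibWaveDir.Schatten

set_option autoImplicit false
open MeasureTheory Filter Topology
open scoped InnerProductSpace ENNReal Real

namespace Pool.Agent.LibWaveDir

variable {H : Type*} [NormedAddCommGroup H] [InnerProductSpace ℂ H] [CompleteSpace H]

/-- The two-parameter unitary group of a commuting pair. -/
noncomputable def U (A₁ A₂ : H →L[ℂ] H) (s : ℝ × ℝ) : H →L[ℂ] H :=
  NormedSpace.exp (((s.1 : ℂ) * Complex.I) • A₁ + ((s.2 : ℂ) * Complex.I) • A₂)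

theorem U_add {A₁ A₂ : H →L[ℂ] H} (hA : Commute A₁ A₂) (s t : ℝ × ℝ) :
    U A₁ A₂ s * U A₁ A₂ t = U A₁ A₂ (s + t) := by
  let _ : NormedAlgebra ℚ (H →L[ℂ] H) := NormedAlgebra.restrictScalars ℚ ℂ (H →L[ℂ] H)
  unfold U
  rw [← NormedSpace.exp_add_of_commute]
  · congr 1
    simp only [Prod.fst_add, Prod.snd_add, Complex.ofReal_add, add_mul, add_smul]
    abel
  · refine Commute.add_left ?_ ?_ <;> refine Commute.add_right ?_ ?_
    · exact ((Commute.refl A₁).smul_left _).smul_right _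
    · exact (hA.smul_left _).smul_right _
    · exact (hA.symm.smul_left _).smul_right _
    · exact ((Commute.refl A₂).smul_left _).smul_right _

theorem U_zero (A₁ A₂ : H →L[ℂ] H) : U A₁ A₂ 0 = 1 := by
  unfold U
  simp [NormedSpace.exp_zero]

theorem U_star {A₁ A₂ : H →L[ℂ] H} (h1 : IsSelfAdjoint A₁) (h2 : IsSelfAdjoint A₂) (s : ℝ × ℝ) :
    star (U A₁ A₂ s) = U A₁ A₂ (-s) := by
  unfold U
  rw [NormedSpace.star_exp]
  congr 1
  rw [star_add, star_smul, star_smul, h1.star_eq, h2.star_eq]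
  simp

theorem U_inner {A₁ A₂ : H →L[ℂ] H} (h1 : IsSelfAdjoint A₁) (h2 : IsSelfAdjoint A₂)
    (s : ℝ × ℝ) (y z : H) : ⟪U A₁ A₂ s y, z⟫_ℂ = ⟪y, U A₁ A₂ (-s) z⟫_ℂ := by
  rw [← U_star h1 h2, ContinuousLinearMap.star_eq_adjoint, ContinuousLinearMap.adjoint_inner_right]

theorem U_norm {A₁ A₂ : H →L[ℂ] H} (h1 : IsSelfAdjoint A₁) (h2 : IsSelfAdjoint A₂)
    (hA : Commute A₁ A₂) (s : ℝ × ℝ) (x : H) : ‖U A₁ A₂ s x‖ = ‖x‖ := by
  have h : ⟪U A₁ A₂ s x, U A₁ A₂ s x⟫_ℂ = ⟪x, x⟫_ℂ := by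
    rw [U_inner h1 h2]
    have : U A₁ A₂ (-s) (U A₁ A₂ s x) = (U A₁ A₂ (-s) * U A₁ A₂ s) x := rfl
    rw [this, U_add hA, neg_add_cancel, U_zero]
    rfl
  rw [inner_self_eq_norm_sq_to_K, inner_self_eq_norm_sq_to_K] at h
  have h' : ‖U A₁ A₂ s x‖ ^ 2 = ‖x‖ ^ 2 := by exact_mod_cast h
  exact (sq_eq_sq₀ (norm_nonneg _) (norm_nonneg _)).1 h'

theorem U_cont (A₁ A₂ : H →L[ℂ] H) : Continuous (U A₁ A₂) := by
  let _ : NormedAlgebra ℚ (H →L[ℂ] H) := NormedAlgebra.restrictScalars ℚ ℂ (H →L[ℂ] H)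
  unfold U
  apply NormedSpace.exp_continuous.comp
  fun_prop

/-- The circle of radius `r`. -/
noncomputable def circ (r ω : ℝ) : ℝ × ℝ := (r * Real.cos ω, r * Real.sin ω)

theorem circ_cont : Continuous fun p : ℝ × ℝ => circ p.1 p.2 := by
  unfold circ; fun_prop

theorem hasDerivAt_exp_one {A : H →L[ℂ] H} {c : ℝ → ℂ} {c' : ℂ} {ω : ℝ}
    (hc : HasDerivAt c c' ω) :
    HasDerivAt (fun ω => NormedSpace.exp (c ω • A)) (c' • (NormedSpace.exp (c ω • A) * A)) ω :=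
  HasDerivAt.scomp ω (hasDerivAt_exp_smul_const A (c ω)) hc

theorem U_deriv {A₁ A₂ : H →L[ℂ] H} (hA : Commute A₁ A₂) {a b : ℝ → ℝ} {a' b' ω : ℝ}
    (ha : HasDerivAt a a' ω) (hb : HasDerivAt b b' ω) :
    HasDerivAt (fun ω => U A₁ A₂ (a ω, b ω))
      (U A₁ A₂ (a ω, b ω) * (((a' : ℂ) * Complex.I) • A₁ + ((b' : ℂ) * Complex.I) • A₂)) ω := by
  have hsplit : ∀ ω, U A₁ A₂ (a ω, b ω) = NormedSpace.exp (((a ω : ℂ) * Complex.I) • A₁) *
      NormedSpace.exp (((b ω : ℂ) * Complex.I) • A₂) := by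
    intro ω
    let _ : NormedAlgebra ℚ (H →L[ℂ] H) := NormedAlgebra.restrictScalars ℚ ℂ (H →L[ℂ] H)
    unfold U
    rw [NormedSpace.exp_add_of_commute]
    exact (hA.smul_left _).smul_right _
  have h1 : HasDerivAt (fun ω => ((a ω : ℂ) * Complex.I)) ((a' : ℂ) * Complex.I) ω :=
    ha.ofReal_comp.mul_const _
  have h2 : HasDerivAt (fun ω => ((b ω : ℂ) * Complex.I)) ((b' : ℂ) * Complex.I) ω :=
    hb.ofReal_comp.mul_const _
  have h3 := (hasDerivAt_exp_one (A := A₁) h1).mul (hasDerivAt_exp_one (A := A₂) h2)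
  have h4 : (fun ω => U A₁ A₂ (a ω, b ω)) = (fun ω => NormedSpace.exp (((a ω : ℂ) * Complex.I) • A₁)) *
      (fun ω => NormedSpace.exp (((b ω : ℂ) * Complex.I) • A₂)) := by
    ext1 ω
    rw [hsplit]
    rfl
  rw [h4]
  have h5 : U A₁ A₂ (a ω, b ω) * (((a' : ℂ) * Complex.I) • A₁ + ((b' : ℂ) * Complex.I) • A₂)
      = ((a' : ℂ) * Complex.I) • (NormedSpace.exp (((a ω : ℂ) * Complex.I) • A₁) * A₁) *
        NormedSpace.exp (((b ω : ℂ) * Complex.I) • A₂) +
        NormedSpace.exp (((a ω : ℂ) * Complex.I) • A₁) *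
        ((b' : ℂ) * Complex.I) • (NormedSpace.exp (((b ω : ℂ) * Complex.I) • A₂) * A₂) := by
    rw [hsplit]
    set X := NormedSpace.exp (((a ω : ℂ) * Complex.I) • A₁)
    set Y := NormedSpace.exp (((b ω : ℂ) * Complex.I) • A₂)
    have hc : Commute A₁ Y := by
      have : Commute A₁ (((b ω : ℂ) * Complex.I) • A₂) := hA.smul_right _
      exact this.exp_right
    have hc' : A₁ * Y = Y * A₁ := hc
    simp only [mul_add, smul_mul_assoc, mul_smul_comm, mul_assoc]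
    rw [hc']
  rw [h5]
  exact h3

theorem core_le {A₁ A₂ B₁ B₂ : H →L[ℂ] H} (hB₁ : IsSelfAdjoint B₁) (hB₂ : IsSelfAdjoint B₂) (hA : Commute A₁ A₂) (hB : Commute B₁ B₂)
    (x : H)
    (hK₁ : MemLp (fun s => (A₁ - B₁) (U A₁ A₂ s x)) 2 (volume : Measure (ℝ × ℝ)))
    (hK₂ : MemLp (fun s => (A₂ - B₂) (U A₁ A₂ s x)) 2 (volume : Measure (ℝ × ℝ)))
    (θ₁ θ₂ : ℝ) (h0 : 0 ≤ θ₁) (hlt : θ₁ < θ₂) (h2 : θ₂ ≤ 2 * π) (w₁ w₂ : H)
    (hw₁ : Tendsto (fun t : ℝ => U B₁ B₂ (-circ t θ₁) (U A₁ A₂ (circ t θ₁) x)) atTop (𝓝 w₁))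
    (hw₂ : Tendsto (fun t : ℝ => U B₁ B₂ (-circ t θ₂) (U A₁ A₂ (circ t θ₂) x)) atTop (𝓝 w₂)) :
    w₁ = w₂ := by
  by_contra hne
  set c : ℝ := ‖w₂ - w₁‖ with hc
  have hcpos : 0 < c := by
    rw [hc, norm_pos_iff, sub_ne_zero]
    exact fun h => hne h.symm
  set N : ℝ × ℝ → ℝ := fun s => ‖(A₁ - B₁) (U A₁ A₂ s x)‖ + ‖(A₂ - B₂) (U A₁ A₂ s x)‖ with hN
  have hUc : Continuous (fun s => U A₁ A₂ s x) := (U_cont A₁ A₂).clm_apply continuous_const
  have hNc : Continuous N := by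
    have := hUc
    simp only [hN]
    fun_prop
  have hN0 : ∀ s, 0 ≤ N s := fun s => by simp only [hN]; positivity
  have hN2 : MemLp N 2 (volume : Measure (ℝ × ℝ)) := hK₁.norm.add hK₂.norm
  have hNfin : ∫⁻ s, ENNReal.ofReal (N s ^ 2) < ⊤ := by
    have h := hN2.eLpNorm_lt_top
    rw [eLpNorm_eq_lintegral_rpow_enorm_toReal (by norm_num) (by norm_num)] at h
    simp only [ENNReal.toReal_ofNat] at h
    have h3 : ∫⁻ (x : ℝ × ℝ), ‖N x‖ₑ ^ (2 : ℝ) = ∫⁻ s, ENNReal.ofReal (N s ^ 2) := by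
      congr 1
      ext s
      rw [ENNReal.ofReal_pow (hN0 s), ← Real.enorm_of_nonneg (hN0 s)]
      norm_num
    rw [h3] at h
    by_contra h4
    rw [not_lt, top_le_iff] at h4
    rw [h4] at h
    simp at h
  -- the derivative along circles
  set Ψ : ℝ → ℝ → H := fun r ω => U B₁ B₂ (-circ r ω) (U A₁ A₂ (circ r ω) x) with hΨ
  set Ψ' : ℝ → ℝ → H := fun r ω => U B₁ B₂ (-circ r ω)
    ((((r * Real.sin ω : ℝ) : ℂ) * Complex.I) • ((B₁ - A₁) (U A₁ A₂ (circ r ω) x)) +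
     (((r * Real.cos ω : ℝ) : ℂ) * Complex.I) • ((A₂ - B₂) (U A₁ A₂ (circ r ω) x))) with hΨ'
  have hderiv : ∀ r ω, HasDerivAt (Ψ r) (Ψ' r ω) ω := by
    intro r ω
    have ha : HasDerivAt (fun ω => r * Real.cos ω) (r * (-Real.sin ω)) ω :=
      (Real.hasDerivAt_cos ω).const_mul r
    have hb : HasDerivAt (fun ω => r * Real.sin ω) (r * Real.cos ω) ω :=
      (Real.hasDerivAt_sin ω).const_mul r
    have hUA := U_deriv hA ha hb
    have hUB := U_deriv hB ha.neg hb.neg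
    have hprod := (hUB.mul hUA)
    have hcomm : U A₁ A₂ (r * Real.cos ω, r * Real.sin ω) *
        ((((r * (-Real.sin ω) : ℝ) : ℂ) * Complex.I) • A₁ +
          (((r * Real.cos ω : ℝ) : ℂ) * Complex.I) • A₂) =
        ((((r * (-Real.sin ω) : ℝ) : ℂ) * Complex.I) • A₁ +
          (((r * Real.cos ω : ℝ) : ℂ) * Complex.I) • A₂) *
          U A₁ A₂ (r * Real.cos ω, r * Real.sin ω) := by
      unfold U
      symm
      apply Commute.exp_right
      refine Commute.add_left ?_ ?_ <;> refine Commute.add_right ?_ ?_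
      · exact ((Commute.refl A₁).smul_left _).smul_right _
      · exact (hA.smul_left _).smul_right _
      · exact (hA.symm.smul_left _).smul_right _
      · exact ((Commute.refl A₂).smul_left _).smul_right _
    rw [hcomm] at hprod
    set D : H →L[ℂ] H := U B₁ B₂ (-(r * Real.cos ω), -(r * Real.sin ω)) *
      (((((r * Real.sin ω : ℝ) : ℂ) * Complex.I) • (B₁ - A₁) +
        (((r * Real.cos ω : ℝ) : ℂ) * Complex.I) • (A₂ - B₂)) *
        U A₁ A₂ (r * Real.cos ω, r * Real.sin ω)) with hD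
    have hDeq : HasDerivAt (fun ω => U B₁ B₂ (-(r * Real.cos ω), -(r * Real.sin ω)) *
        U A₁ A₂ (r * Real.cos ω, r * Real.sin ω)) D ω := by
      have h6 : D = U B₁ B₂ (-(r * Real.cos ω), -(r * Real.sin ω)) *
          ((((-(r * -Real.sin ω) : ℝ) : ℂ) * Complex.I) • B₁ +
            (((-(r * Real.cos ω) : ℝ) : ℂ) * Complex.I) • B₂) *
            U A₁ A₂ (r * Real.cos ω, r * Real.sin ω) +
          U B₁ B₂ (-(r * Real.cos ω), -(r * Real.sin ω)) *
          (((((r * (-Real.sin ω) : ℝ) : ℂ) * Complex.I) • A₁ +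
          (((r * Real.cos ω : ℝ) : ℂ) * Complex.I) • A₂) *
          U A₁ A₂ (r * Real.cos ω, r * Real.sin ω)) := by
        rw [hD, mul_assoc, ← mul_add, ← add_mul]
        congr 2
        push_cast
        simp only [mul_neg, neg_mul, neg_neg, neg_smul, smul_sub]
        abel
      rw [h6]
      exact hprod
    have happ := ((ContinuousLinearMap.apply ℂ H x).restrictScalars ℝ).hasFDerivAt.comp_hasDerivAt
      ω hDeq
    exact happ
  have hΨ'n : ∀ r ω, 0 ≤ r → ‖Ψ' r ω‖ ≤ r * N (circ r ω) := by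
    intro r ω hr
    simp only [hΨ']
    rw [U_norm hB₁ hB₂ hB]
    refine (norm_add_le _ _).trans ?_
    rw [norm_smul, norm_smul, norm_mul, norm_mul, Complex.norm_I, mul_one, mul_one,
      Complex.norm_real, Complex.norm_real, norm_mul, norm_mul, Real.norm_of_nonneg hr]
    have h1 : ‖Real.sin ω‖ ≤ 1 := Real.abs_sin_le_one ω
    have h2 : ‖Real.cos ω‖ ≤ 1 := Real.abs_cos_le_one ω
    have h3 : ‖(B₁ - A₁) (U A₁ A₂ (circ r ω) x)‖ = ‖(A₁ - B₁) (U A₁ A₂ (circ r ω) x)‖ := by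
      rw [← norm_neg]
      congr 1
      simp
    rw [h3]
    simp only [hN]
    have h4 : r * ‖Real.sin ω‖ * ‖(A₁ - B₁) (U A₁ A₂ (circ r ω) x)‖
        ≤ r * 1 * ‖(A₁ - B₁) (U A₁ A₂ (circ r ω) x)‖ := by gcongr
    have h5 : r * ‖Real.cos ω‖ * ‖(A₂ - B₂) (U A₁ A₂ (circ r ω) x)‖
        ≤ r * 1 * ‖(A₂ - B₂) (U A₁ A₂ (circ r ω) x)‖ := by gcongr
    nlinarith
  have hcirc : ∀ r, Continuous (circ r) := fun r => by unfold circ; fun_prop
  have hΨ'c : ∀ r, Continuous (Ψ' r) := by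
    intro r
    have h1 : Continuous fun ω => U A₁ A₂ (circ r ω) x := hUc.comp (hcirc r)
    have h2 : Continuous fun ω => U B₁ B₂ (-circ r ω) := (U_cont B₁ B₂).comp (hcirc r).neg
    simp only [hΨ']
    apply h2.clm_apply
    fun_prop
  -- lower bound on circles
  have hlow : ∀ᶠ r : ℝ in atTop, c ^ 2 / (8 * π) ≤ ∫ ω in θ₁..θ₂, (r * N (circ r ω)) ^ 2 := by
    have hdiff : Tendsto (fun r => ‖Ψ r θ₂ - Ψ r θ₁‖) atTop (𝓝 c) := (hw₂.sub hw₁).norm
    filter_upwards [hdiff.eventually (lt_mem_nhds (half_lt_self hcpos)),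
      eventually_ge_atTop 0] with r hr hr0
    have hF : ∫ ω in θ₁..θ₂, Ψ' r ω = Ψ r θ₂ - Ψ r θ₁ :=
      intervalIntegral.integral_eq_sub_of_hasDerivAt (fun ω _ => hderiv r ω)
        ((hΨ'c r).intervalIntegrable _ _)
    have hint1 : IntervalIntegrable (fun ω => r * N (circ r ω)) volume θ₁ θ₂ := by
      apply Continuous.intervalIntegrable
      exact continuous_const.mul (hNc.comp (hcirc r))
    have hint2 : IntervalIntegrable (fun ω => (r * N (circ r ω)) ^ 2) volume θ₁ θ₂ := by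
      apply Continuous.intervalIntegrable
      exact (continuous_const.mul (hNc.comp (hcirc r))).pow 2
    have h1 : c / 2 ≤ ∫ ω in θ₁..θ₂, r * N (circ r ω) := by
      calc c / 2 ≤ ‖∫ ω in θ₁..θ₂, Ψ' r ω‖ := by rw [hF]; exact hr.le
        _ ≤ ∫ ω in θ₁..θ₂, ‖Ψ' r ω‖ := intervalIntegral.norm_integral_le_integral_norm hlt.le
        _ ≤ ∫ ω in θ₁..θ₂, r * N (circ r ω) := by
          apply intervalIntegral.integral_mono_on hlt.le
          · exact ((hΨ'c r).norm).intervalIntegrable _ _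
          · exact hint1
          · intro ω _
            exact hΨ'n r ω hr0
    set lam : ℝ := c / (4 * π) with hlam
    have hlampos : 0 < lam := by positivity
    have h2' : ∫ ω in θ₁..θ₂, r * N (circ r ω)
        ≤ ∫ ω in θ₁..θ₂, (lam / 2 + (1 / (2 * lam)) * (r * N (circ r ω)) ^ 2) := by
      apply intervalIntegral.integral_mono_on hlt.le hint1
      · exact (intervalIntegrable_const).add (hint2.const_mul _)
      · intro ω _
        set y := r * N (circ r ω)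
        have : 0 ≤ (y - lam) ^ 2 := sq_nonneg _
        rw [show lam / 2 + 1 / (2 * lam) * y ^ 2 = (lam ^ 2 + y ^ 2) / (2 * lam) by
          field_simp]
        rw [le_div_iff₀ (by positivity)]
        nlinarith
    set I2 := ∫ ω in θ₁..θ₂, (r * N (circ r ω)) ^ 2 with hI2
    have h2e : ∫ ω in θ₁..θ₂, (lam / 2 + (1 / (2 * lam)) * (r * N (circ r ω)) ^ 2)
        = (θ₂ - θ₁) * (lam / 2) + (1 / (2 * lam)) * I2 := by
      rw [intervalIntegral.integral_add intervalIntegrable_const (hint2.const_mul _),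
        intervalIntegral.integral_const, intervalIntegral.integral_const_mul, smul_eq_mul]
    rw [h2e] at h2'
    have h3 : (θ₂ - θ₁) * (lam / 2) ≤ 2 * π * (lam / 2) := by
      have : θ₂ - θ₁ ≤ 2 * π := by linarith
      gcongr
    have h4 : c / 2 ≤ 2 * π * (lam / 2) + 1 / (2 * lam) * I2 := by linarith
    have h5 : 2 * π * (lam / 2) = c / 4 := by rw [hlam]; field_simp
    have h6 : 1 / (2 * lam) = 2 * π / c := by rw [hlam]; field_simp; norm_num
    rw [h5, h6] at h4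
    have h7 : c / 4 ≤ 2 * π / c * I2 := by linarith
    have h8 : c / 4 * c ≤ 2 * π * I2 := by
      have := mul_le_mul_of_nonneg_right h7 hcpos.le
      calc c / 4 * c ≤ 2 * π / c * I2 * c := this
        _ = 2 * π * I2 := by field_simp
    rw [div_le_iff₀ (by positivity)]
    nlinarith
  -- full circle
  have hfull : ∀ᶠ r : ℝ in atTop, ENNReal.ofReal (c ^ 2 / (8 * π)) * ENNReal.ofReal r⁻¹
      ≤ ∫⁻ ω in Set.Ioo (-π) π, ENNReal.ofReal r * ENNReal.ofReal (N (circ r ω) ^ 2) := by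
    filter_upwards [hlow, eventually_gt_atTop 0] with r hr hr0
    set F : ℝ → ℝ := fun ω => (r * N (circ r ω)) ^ 2 with hF
    have hFc : Continuous F := (continuous_const.mul (hNc.comp (hcirc r))).pow 2
    have hFper : Function.Periodic F (2 * π) := by
      intro ω
      simp only [hF, circ, Real.cos_add_two_pi, Real.sin_add_two_pi]
    have h1 : ∫ ω in θ₁..θ₂, F ω ≤ ∫ ω in (0 : ℝ)..(2 * π), F ω := by
      apply intervalIntegral.integral_mono_interval h0 hlt.le h2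
      · filter_upwards with ω
        exact sq_nonneg _
      · exact hFc.intervalIntegrable _ _
    have h3 : ∫ ω in (0 : ℝ)..(2 * π), F ω = ∫ ω in (-π)..π, F ω := by
      have := hFper.intervalIntegral_add_eq 0 (-π)
      rw [zero_add] at this
      rw [this]
      congr 1
      ring
    have h4 : ENNReal.ofReal (∫ ω in (-π)..π, F ω) = ∫⁻ ω in Set.Ioo (-π) π, ENNReal.ofReal (F ω) := by
      rw [intervalIntegral.integral_of_le (by linarith [Real.pi_pos]),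
        ← ofReal_integral_eq_lintegral_ofReal]
      · rw [integral_Ioc_eq_integral_Ioo]
      · exact (hFc.integrableOn_Icc (a := -π) (b := π)).mono_set Set.Ioo_subset_Icc_self
      · filter_upwards with ω
        exact sq_nonneg _
    have h5 : ENNReal.ofReal (c ^ 2 / (8 * π)) ≤ ∫⁻ ω in Set.Ioo (-π) π, ENNReal.ofReal (F ω) := by
      rw [← h4, ← h3]
      exact ENNReal.ofReal_le_ofReal (hr.trans h1)
    calc ENNReal.ofReal (c ^ 2 / (8 * π)) * ENNReal.ofReal r⁻¹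
        ≤ (∫⁻ ω in Set.Ioo (-π) π, ENNReal.ofReal (F ω)) * ENNReal.ofReal r⁻¹ := by gcongr
      _ = ∫⁻ ω in Set.Ioo (-π) π, ENNReal.ofReal (F ω) * ENNReal.ofReal r⁻¹ := by
          rw [lintegral_mul_const' _ _ ENNReal.ofReal_ne_top]
      _ = ∫⁻ ω in Set.Ioo (-π) π, ENNReal.ofReal r * ENNReal.ofReal (N (circ r ω) ^ 2) := by
          congr 1
          ext ω
          rw [← ENNReal.ofReal_mul (sq_nonneg _), ← ENNReal.ofReal_mul hr0.le]
          congr 1
          field_simp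
  obtain ⟨R, hR⟩ := eventually_atTop.1 hfull
  set R' := max R 0 with hR'
  have hpolar := lintegral_comp_polarCoord_symm (fun p => ENNReal.ofReal (N p ^ 2))
  have htarget : polarCoord.target = Set.Ioi (0 : ℝ) ×ˢ Set.Ioo (-π) π := rfl
  have hmeas : Measurable fun p : ℝ × ℝ => ENNReal.ofReal p.1 * ENNReal.ofReal (N (circ p.1 p.2) ^ 2) := by
    have : Continuous fun p : ℝ × ℝ => N (circ p.1 p.2) ^ 2 := (hNc.comp circ_cont).pow 2
    exact (measurable_fst.ennreal_ofReal).mul this.measurable.ennreal_ofReal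
  have hprod : ∫⁻ (p : ℝ × ℝ) in polarCoord.target,
      ENNReal.ofReal p.1 • ENNReal.ofReal (N (polarCoord.symm p) ^ 2)
      = ∫⁻ r in Set.Ioi (0 : ℝ), ∫⁻ ω in Set.Ioo (-π) π,
        ENNReal.ofReal r * ENNReal.ofReal (N (circ r ω) ^ 2) := by
    rw [htarget, Measure.volume_eq_prod, ← Measure.prod_restrict]
    exact lintegral_prod _ hmeas.aemeasurable
  rw [hprod] at hpolar
  have hle : ∫⁻ r in Set.Ioi R', ENNReal.ofReal (c ^ 2 / (8 * π)) * ENNReal.ofReal r⁻¹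
      ≤ ∫⁻ s, ENNReal.ofReal (N s ^ 2) := by
    rw [← hpolar]
    calc ∫⁻ r in Set.Ioi R', ENNReal.ofReal (c ^ 2 / (8 * π)) * ENNReal.ofReal r⁻¹
        ≤ ∫⁻ r in Set.Ioi R', ∫⁻ ω in Set.Ioo (-π) π,
          ENNReal.ofReal r * ENNReal.ofReal (N (circ r ω) ^ 2) := by
          apply setLIntegral_mono' measurableSet_Ioi
          intro r hr
          exact hR r ((le_max_left _ _).trans (le_of_lt hr))
      _ ≤ _ := lintegral_mono_set (Set.Ioi_subset_Ioi (le_max_right _ _))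
  have hinf : ∫⁻ r in Set.Ioi R', ENNReal.ofReal (c ^ 2 / (8 * π)) * ENNReal.ofReal r⁻¹ = ⊤ := by
    rw [lintegral_const_mul' _ _ ENNReal.ofReal_ne_top]
    have hc' : ENNReal.ofReal (c ^ 2 / (8 * π)) ≠ 0 := by
      rw [ne_eq, ENNReal.ofReal_eq_zero, not_le]
      positivity
    have : ∫⁻ r in Set.Ioi R', ENNReal.ofReal r⁻¹ = ⊤ := by
      by_contra hcon
      apply not_integrableOn_Ioi_inv (a := R')
      refine ⟨(measurable_inv).aestronglyMeasurable, ?_⟩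
      rw [hasFiniteIntegral_iff_ofReal]
      · exact lt_top_iff_ne_top.2 hcon
      · rw [EventuallyLE, ae_restrict_iff' measurableSet_Ioi]
        filter_upwards with r hr
        have : (0 : ℝ) < r := lt_of_le_of_lt (le_max_right _ _) hr
        simp only [Pi.zero_apply]
        positivity
    rw [this, ENNReal.mul_top hc']
  rw [hinf, top_le_iff] at hle
  exact hNfin.ne hle

/-- Directional wave operators agree along two directions, for a pair with summable weighted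
approximation numbers of the differences. -/
theorem wave_eq {A₁ A₂ B₁ B₂ : H →L[ℂ] H}
    (hA₁ : IsSelfAdjoint A₁) (hA₂ : IsSelfAdjoint A₂) (hB₁ : IsSelfAdjoint B₁)
    (hB₂ : IsSelfAdjoint B₂) (hA : Commute A₁ A₂) (hB : Commute B₁ B₂)
    (hT₁ : Summable fun n : ℕ => apx (A₁ - B₁) n / Real.sqrt ((n : ℝ) + 1))
    (hT₂ : Summable fun n : ℕ => apx (A₂ - B₂) n / Real.sqrt ((n : ℝ) + 1))
    (hac : ∀ x : H, ∃ f : ℝ × ℝ → ℂ, Integrable f ∧
      ∀ s : ℝ × ℝ, ⟪x, U A₁ A₂ s x⟫_ℂ = ∫ p, f p * ch s p)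
    (θ₁ θ₂ : ℝ) (h0 : 0 ≤ θ₁) (hlt : θ₁ < θ₂) (h2 : θ₂ ≤ 2 * π) (W₁ W₂ : H →L[ℂ] H)
    (hW₁ : ∀ x, Tendsto (fun t : ℝ => U B₁ B₂ (-circ t θ₁) (U A₁ A₂ (circ t θ₁) x)) atTop
      (𝓝 (W₁ x)))
    (hW₂ : ∀ x, Tendsto (fun t : ℝ => U B₁ B₂ (-circ t θ₂) (U A₁ A₂ (circ t θ₂) x)) atTop
      (𝓝 (W₂ x))) :
    W₁ = W₂ := by
  have hcl : IsClosed {x : H | W₁ x = W₂ x} := isClosed_eq (by fun_prop) (by fun_prop)
  ext x
  have hx : x ∈ closure {x : H | W₁ x = W₂ x} := by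
    rw [Metric.mem_closure_iff]
    intro ε hε
    obtain ⟨f, hf, hfx⟩ := hac x
    obtain ⟨x', hx', C, hC, hCx'⟩ := density (U A₁ A₂)
      (fun s t y => by
        have : U A₁ A₂ s (U A₁ A₂ t y) = (U A₁ A₂ s * U A₁ A₂ t) y := rfl
        rw [this, U_add hA])
      (fun y => by rw [U_zero]; rfl) (fun s y z => U_inner hA₁ hA₂ s y z) x f hf hfx ε hε
    refine ⟨x', ?_, by rwa [dist_eq_norm]⟩
    have hUc : Continuous (fun s => U A₁ A₂ s x') := (U_cont A₁ A₂).clm_apply continuous_const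
    exact core_le hB₁ hB₂ hA hB x' (memLp_of_summable _ hT₁ _ hUc C hC hCx')
      (memLp_of_summable _ hT₂ _ hUc C hC hCx') θ₁ θ₂ h0 hlt h2 _ _ (hW₁ x') (hW₂ x')
  rw [hcl.closure_eq] at hx
  exact hx

end Pool.Agent.LibWaveDir
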